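import Pool.Agent.Helper52.AT.Defs

/-!
# Orbits attracted by a point (MP_295d38_ag), block AT-SEQa

If `s (n+1) - μ₀ s n ∼ c (n choose j) μ ^ n` with `|μ₀| < |μ|`, then
`s n ∼ (c / (μ - μ₀)) (n choose j) μ ^ n`.
-/

set_option autoImplicit false

namespace Pool.Agent.Helper52.AT

open Filter Topology IsLocalRing

/-- `a (n+1) ≤ θ a n + ε n`, `θ < 1`, `ε n → 0` imply `a n → 0` -/
theorem tendsto_zero_of_contr {a ε : ℕ → ℝ} {θ : ℝ} (ha : ∀ n, 0 ≤ a n) (hθ0 : 0 ≤ θ)
    (hθ : θ < 1) (hε : Tendsto ε atTop (𝓝 0))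
    (h : ∀ᶠ n in atTop, a (n + 1) ≤ θ * a n + ε n) : Tendsto a atTop (𝓝 0) := by
  rw [Metric.tendsto_atTop]
  intro η hη
  -- eventually `ε n ≤ (1 - θ) η / 2`
  have h1 : ∀ᶠ n in atTop, ε n < (1 - θ) * (η / 2) := by
    apply hε.eventually_lt_const
    have : 0 < 1 - θ := by linarith
    positivity
  obtain ⟨N, hN⟩ := Filter.eventually_atTop.1 (h.and h1)
  -- by induction `a (N + k) ≤ θ ^ k a N + η / 2`
  have h2 : ∀ k, a (N + k) ≤ θ ^ k * a N + η / 2 := by
    intro k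
    induction k with
    | zero => simp; positivity
    | succ k ih =>
      have h3 := hN (N + k) (by omega)
      have h4 : a (N + (k + 1)) ≤ θ * a (N + k) + ε (N + k) := h3.1
      have h5 := h3.2
      have h6 : θ * a (N + k) ≤ θ * (θ ^ k * a N + η / 2) := mul_le_mul_of_nonneg_left ih hθ0
      have h7 : θ ^ (k + 1) * a N = θ * (θ ^ k * a N) := by ring
      rw [h7]
      nlinarith
  have h3 : Tendsto (fun k => θ ^ k * a N) atTop (𝓝 0) := by
    simpa using (tendsto_pow_atTop_nhds_zero_of_lt_one hθ0 hθ).mul_const (a N)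
  obtain ⟨K, hK⟩ := Filter.eventually_atTop.1 (h3.eventually_lt_const (show (0 : ℝ) < η / 2 by positivity))
  refine ⟨N + K, fun n hn => ?_⟩
  have h4 := h2 (n - N)
  have h5 := hK (n - N) (by omega)
  have h6 : N + (n - N) = n := by omega
  rw [h6] at h4
  rw [Real.dist_eq, sub_zero, abs_of_nonneg (ha n)]
  linarith

/-- the ratio of consecutive binomial coefficients tends to `1` -/
theorem tendsto_choose_ratio (j : ℕ) :
    Tendsto (fun n : ℕ => (n.choose j : ℂ) / ((n + 1).choose j : ℂ)) atTop (𝓝 1) := by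
  have h1 : ∀ᶠ n : ℕ in atTop, (1 : ℂ) - (j : ℂ) * ((n : ℂ) + 1)⁻¹ =
      (n.choose j : ℂ) / ((n + 1).choose j : ℂ) := by
    filter_upwards [eventually_ge_atTop j] with n hn
    have h2 : ((n + 1).choose j) * (n + 1 - j) = (n + 1) * n.choose j := by
      have := Nat.add_one_mul_choose_eq n j
      have h3 := Nat.choose_mul_succ_eq n j
      rw [mul_comm (n + 1)]
      exact h3.symm
    have h3 : (((n + 1).choose j : ℕ) : ℂ) * ((n : ℂ) + 1 - j) = ((n : ℂ) + 1) * (n.choose j : ℂ) := by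
      have h4 := congrArg (fun k : ℕ => (k : ℂ)) h2
      simp only [Nat.cast_mul] at h4
      rw [Nat.cast_sub (by omega)] at h4
      push_cast at h4
      exact h4
    have h5 : ((n : ℂ) + 1) ≠ 0 := by exact_mod_cast Nat.succ_ne_zero n
    have h6 : (((n + 1).choose j : ℕ) : ℂ) ≠ 0 := by
      exact_mod_cast (Nat.choose_pos (by omega : j ≤ n + 1)).ne'
    rw [eq_div_iff h6]
    field_simp
    linear_combination h3
  refine Tendsto.congr' h1 ?_
  have h2 : Tendsto (fun n : ℕ => ((n : ℂ) + 1)⁻¹) atTop (𝓝 0) := by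
    have := tendsto_one_div_add_atTop_nhds_zero_nat (𝕜 := ℂ)
    simpa using this
  simpa using tendsto_const_nhds.sub (h2.const_mul (j : ℂ))

theorem reg_lt {μ μ₀ c : ℂ} {j : ℕ} {s s' : ℕ → ℂ}
    (hs : ∀ n, s (n + 1) - μ₀ * s n = s' n) (h : Reg μ j c s') (hμ : ‖μ₀‖ < ‖μ‖) :
    Reg μ j (c / (μ - μ₀)) s := by
  obtain ⟨hμ0, hc, hlim⟩ := h
  have hne : μ - μ₀ ≠ 0 := by
    intro h
    rw [sub_eq_zero] at h
    rw [h] at hμ
    exact lt_irrefl _ hμ
  refine ⟨hμ0, div_ne_zero hc hne, ?_⟩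
  set w : ℕ → ℂ := fun n => (n.choose j : ℂ) * μ ^ n with hw
  set L : ℂ := c / (μ - μ₀) with hL
  have hLeq : L = (μ₀ * L + c) / μ := by
    rw [hL]; field_simp; ring
  -- the ratio
  set ρ : ℕ → ℂ := fun n => w n / w (n + 1) with hρ
  have hw0 : ∀ n, j ≤ n → w n ≠ 0 := by
    intro n hn
    have : ((n.choose j : ℕ) : ℂ) ≠ 0 := by exact_mod_cast (Nat.choose_pos hn).ne'
    exact mul_ne_zero this (pow_ne_zero _ hμ0)
  have hρlim : Tendsto ρ atTop (𝓝 μ⁻¹) := by
    have h1 := (tendsto_choose_ratio j).mul_const (μ⁻¹)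
    rw [one_mul] at h1
    refine h1.congr (fun n => ?_)
    simp only [hρ, hw]
    rw [pow_succ, mul_div_mul_comm, ← div_div, div_self (pow_ne_zero _ hμ0), one_div]
  set q : ℕ → ℂ := fun n => s n / w n with hq
  set p : ℕ → ℂ := fun n => s' n / w n with hp
  have hrec : ∀ n, j ≤ n → q (n + 1) - L = ρ n * μ₀ * (q n - L) + (ρ n * (μ₀ * L + p n) - L) := by
    intro n hn
    have h1 := hw0 n hn
    have h2 := hw0 (n + 1) (by omega)
    simp only [hq, hp, hρ]
    have h3 : s (n + 1) = μ₀ * s n + s' n := by rw [← hs n]; ring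
    rw [h3]
    field_simp
    ring
  have hε : Tendsto (fun n => ρ n * (μ₀ * L + p n) - L) atTop (𝓝 0) := by
    have h1 : Tendsto (fun n => ρ n * (μ₀ * L + p n) - L) atTop (𝓝 (μ⁻¹ * (μ₀ * L + c) - L)) :=
      (hρlim.mul (tendsto_const_nhds.add hlim)).sub_const L
    have h2 : μ⁻¹ * (μ₀ * L + c) - L = 0 := by
      rw [sub_eq_zero, eq_comm]
      rw [← div_eq_inv_mul]
      exact hLeq
    rwa [h2] at h1
  have hμpos : 0 < ‖μ‖ := norm_pos_iff.2 hμ0
  obtain ⟨θ, hθ1, hθ2⟩ := exists_between (show ‖μ⁻¹ * μ₀‖ < 1 by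
    rw [norm_mul, norm_inv, ← div_eq_inv_mul, div_lt_one hμpos]; exact hμ)
  have hθe : ∀ᶠ n in atTop, ‖ρ n * μ₀‖ < θ :=
    ((hρlim.mul_const μ₀).norm).eventually_lt_const hθ1
  have hmain : Tendsto (fun n => ‖q n - L‖) atTop (𝓝 0) := by
    refine tendsto_zero_of_contr (ε := fun n => ‖ρ n * (μ₀ * L + p n) - L‖) (θ := θ)
      (fun n => norm_nonneg _) ((norm_nonneg _).trans hθ1.le) hθ2 ?_ ?_
    · simpa using hε.norm
    · filter_upwards [hθe, eventually_ge_atTop j] with n hn hn2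
      rw [hrec n hn2]
      refine (norm_add_le _ _).trans ?_
      rw [norm_mul]
      have := mul_le_mul_of_nonneg_right hn.le (norm_nonneg (q n - L))
      linarith
  have h9 := (tendsto_iff_norm_sub_tendsto_zero (f := q) (b := L)).2 hmain
  exact h9

end Pool.Agent.Helper52.AT
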